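import Mathlib

namespace Pool.Agent.H.MP_260e18_an

open MeasureTheory Set Filter Topology
open scoped SchwartzMap FourierTransform Real ContDiff

theorem decay2 (f : 𝓢(ℝ, ℂ)) : ∃ C : ℝ, 0 < C ∧ ∀ x : ℝ, ‖f x‖ ≤ C / (1 + |x|) ^ 2 := by
  refine ⟨2 ^ 2 * (Finset.Iic ((2, 0) : ℕ × ℕ)).sup
    (fun m => SchwartzMap.seminorm ℝ m.1 m.2) f + 1, by positivity, fun x => ?_⟩
  have := SchwartzMap.one_add_le_sup_seminorm_apply (𝕜 := ℝ) (m := (2, 0)) (k := 2) (n := 0)
    le_rfl le_rfl f x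
  rw [norm_iteratedFDeriv_zero, Real.norm_eq_abs] at this
  rw [le_div_iff₀ (by positivity), mul_comm]
  exact this.trans (le_add_of_nonneg_right zero_le_one)

theorem summable_w : Summable fun n : ℤ => 1 / (1 + |(n : ℝ)|) ^ 2 := by
  have h : Summable fun n : ℕ => 1 / (1 + (n : ℝ)) ^ 2 := by
    have := (summable_nat_add_iff 1).2 (Real.summable_one_div_nat_pow.2 one_lt_two)
    refine this.congr fun n => ?_
    push_cast; rw [add_comm]
  refine Summable.of_nat_of_neg ?_ ?_ <;> simpa using h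

theorem shift_bound {C : ℝ} (hC : 0 ≤ C) (x : ℝ) (n : ℤ) :
    C / (1 + |x - n|) ^ 2 ≤ C * (1 + |x|) ^ 2 * (1 / (1 + |(n : ℝ)|) ^ 2) := by
  have h1 : 1 + |(n : ℝ)| ≤ (1 + |x|) * (1 + |x - n|) := by
    have : |(n : ℝ)| ≤ |x| + |x - n| := by
      have := abs_sub x (x - n)
      simpa using this
    nlinarith [abs_nonneg x, abs_nonneg (x - n)]
  rw [mul_one_div, div_le_div_iff₀ (by positivity) (by positivity), mul_assoc, ← mul_pow]
  gcongr

/-- a smooth bump as a Schwartz function -/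
noncomputable def bump (b : ContDiffBump (0 : ℝ)) : 𝓢(ℝ, ℂ) :=
  HasCompactSupport.toSchwartzMap (f := fun x => ((b x : ℝ) : ℂ))
    (b.hasCompactSupport.comp_left (g := fun t : ℝ => (t : ℂ)) (by simp))
    (Complex.ofRealCLM.contDiff.comp b.contDiff)

theorem bump_apply (b : ContDiffBump (0 : ℝ)) (x : ℝ) : bump b x = (b x : ℝ) := rfl

/-- inner bump -/
noncomputable def b1 : ContDiffBump (0 : ℝ) := ⟨1 / 8, 1 / 4, by norm_num, by norm_num⟩

/-- outer bump -/
noncomputable def b2 : ContDiffBump (0 : ℝ) := ⟨1 / 4, 1 / 2, by norm_num, by norm_num⟩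

theorem expansion (τ v : ℝ) (hv : |v| ≤ 1 / 4) :
    HasSum (fun n : ℤ => 𝓕 (bump b2) (n - τ) * Complex.exp (2 * π * Complex.I * n * v))
      (Complex.exp (2 * π * Complex.I * τ * v)) := by
  let Ψ : 𝓢(ℝ, ℂ) := HasCompactSupport.toSchwartzMap
    (f := fun x => ((b2 x : ℝ) : ℂ) * Complex.exp (2 * π * Complex.I * τ * x))
    ((b2.hasCompactSupport.comp_left (g := fun t : ℝ => (t : ℂ)) (by simp)).mul_right)
    ((Complex.ofRealCLM.contDiff.comp b2.contDiff).mul
      (Complex.contDiff_exp.comp (contDiff_const.mul Complex.ofRealCLM.contDiff)))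
  have hΨ : ∀ x, Ψ x = ((b2 x : ℝ) : ℂ) * Complex.exp (2 * π * Complex.I * τ * x) := fun _ => rfl
  have hF : ∀ n : ℤ, 𝓕 Ψ n = 𝓕 (bump b2) (n - τ) := fun n => by
    rw [SchwartzMap.fourier_coe, SchwartzMap.fourier_coe, Real.fourier_real_eq_integral_exp_smul,
      Real.fourier_real_eq_integral_exp_smul]
    refine integral_congr_ae (Eventually.of_forall fun x => ?_)
    simp only [hΨ, bump_apply, smul_eq_mul]
    rw [mul_comm (b2 x : ℂ), ← mul_assoc, ← Complex.exp_add]
    congr 2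
    push_cast; ring
  have h1 := Ψ.tsum_eq_tsum_fourier v
  have h2 : ∑' n : ℤ, Ψ (v + n) = Complex.exp (2 * π * Complex.I * τ * v) := by
    rw [tsum_eq_single 0]
    · rw [hΨ, Int.cast_zero, add_zero, b2.one_of_mem_closedBall (by simpa [b2] using hv)]
      simp
    · intro n hn
      rw [hΨ, b2.zero_of_le_dist, Complex.ofReal_zero, zero_mul]
      have h3 : (1 : ℝ) ≤ |(n : ℝ)| := by exact_mod_cast Int.one_le_abs hn
      have h4 := abs_sub (v + n) v
      simp only [add_sub_cancel_left] at h4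
      simp only [b2, dist_zero_right, Real.norm_eq_abs]
      linarith
  have h3 : (fun n : ℤ => 𝓕 Ψ n * fourier n (v : UnitAddCircle)) = fun n : ℤ =>
      𝓕 (bump b2) (n - τ) * Complex.exp (2 * π * Complex.I * n * v) := by
    funext n
    rw [hF, fourier_coe_apply]; simp
  rw [h2, h3] at h1
  rw [h1]
  refine Summable.hasSum ?_
  obtain ⟨C, hC, hb⟩ := decay2 (𝓕 (bump b2))
  refine Summable.of_norm_bounded (summable_w.mul_left (C * (1 + |τ|) ^ 2)) fun n => ?_
  have : ‖Complex.exp (2 * π * Complex.I * n * v)‖ = 1 := by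
    rw [Complex.norm_exp]; simp
  rw [norm_mul, this, mul_one]
  refine (hb _).trans ?_
  rw [abs_sub_comm]
  exact shift_bound hC.le τ n

theorem translate (x τ : ℝ) :
    HasSum (fun n : ℤ => 𝓕 (bump b2) (n - τ) * 𝓕 (bump b1) (x - n)) (𝓕 (bump b1) (x - τ)) := by
  obtain ⟨C, hC, hb⟩ := decay2 (𝓕 (bump b2))
  let F : ℤ → ℝ → ℂ := fun n v => 𝓕 (bump b2) (n - τ) *
    (Complex.exp (↑(-2 * π * v * (x - n)) * Complex.I) • bump b1 v)
  have hn : ∀ n v, ‖F n v‖ = ‖𝓕 (bump b2) (n - τ)‖ * ‖bump b1 v‖ := fun n v => by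
    simp only [F, norm_mul, smul_eq_mul, Complex.norm_exp_ofReal_mul_I, one_mul]
  have hi : ∀ n, Integrable (F n) := fun n => by
    refine Integrable.mono' ((bump b1).integrable.norm.const_mul ‖𝓕 (bump b2) (n - τ)‖) ?_
      (Eventually.of_forall fun v => (hn n v).le)
    have := (bump b1).continuous
    exact Continuous.aestronglyMeasurable (by fun_prop)
  have hs : Summable fun n => ∫ v, ‖F n v‖ := by
    simp only [hn, integral_const_mul]
    refine Summable.mul_right _ (Summable.of_nonneg_of_le (fun _ => norm_nonneg _) (fun n => ?_)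
      (summable_w.mul_left (C * (1 + |τ|) ^ 2)))
    refine (hb _).trans ?_
    rw [abs_sub_comm]
    exact shift_bound hC.le τ n
  have h1 := hasSum_integral_of_summable_integral_norm hi hs
  have h2 : ∀ n, ∫ v, F n v = 𝓕 (bump b2) (n - τ) * 𝓕 (bump b1) (x - n) := fun n => by
    rw [integral_const_mul, SchwartzMap.fourier_coe (bump b1),
      Real.fourier_real_eq_integral_exp_smul]
  have h3 : ∫ v, ∑' n, F n v = 𝓕 (bump b1) (x - τ) := by
    rw [SchwartzMap.fourier_coe (bump b1), Real.fourier_real_eq_integral_exp_smul]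
    refine integral_congr_ae (Eventually.of_forall fun v => ?_)
    beta_reduce
    by_cases hv : |v| ≤ 1 / 4
    · have h4 := (expansion τ v hv).mul_right
        (Complex.exp (↑(-2 * π * v * x) * Complex.I) * bump b1 v)
      have e1 : ∀ n : ℤ, F n v = 𝓕 (bump b2) (n - τ) * Complex.exp (2 * π * Complex.I * n * v) *
          (Complex.exp (↑(-2 * π * v * x) * Complex.I) * bump b1 v) := fun n => by
        simp only [F, smul_eq_mul]
        have : Complex.exp (↑(-2 * π * v * (x - n)) * Complex.I) =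
            Complex.exp (2 * π * Complex.I * n * v) *
              Complex.exp (↑(-2 * π * v * x) * Complex.I) := by
          rw [← Complex.exp_add]
          congr 1
          push_cast; ring
        rw [this]; ring
      simp only [e1]
      rw [h4.tsum_eq, smul_eq_mul, ← mul_assoc, ← Complex.exp_add]
      congr 2
      push_cast; ring
    · have : bump b1 v = 0 := by
        rw [bump_apply, b1.zero_of_le_dist, Complex.ofReal_zero]
        simp only [b1, dist_zero_right, Real.norm_eq_abs]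
        linarith [not_le.1 hv]
      simp [F, this]
  simp only [h2] at h1
  rwa [h3] at h1

theorem kernel : ∃ (h : ℝ → ℂ) (b : ℤ → ℝ → ℂ) (w : ℤ → ℝ) (C : ℝ), Continuous h ∧ Integrable h ∧
    h 0 ≠ 0 ∧ 0 < C ∧ (∀ x, ‖h x‖ ≤ C / (1 + |x|) ^ 2) ∧ (∀ n, 0 ≤ w n) ∧ Summable w ∧
    (∀ n, b n 0 = 0) ∧
    (∀ n s t, |s| ≤ 1 / 2 → |t| ≤ 1 / 2 → ‖b n s - b n t‖ ≤ w n * |s - t|) ∧
    ∀ x τ, HasSum (fun n : ℤ => b n τ * h (x - n)) (h (x - τ) - h x) := by
  obtain ⟨C, hC, hb⟩ := decay2 (𝓕 (bump b1))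
  obtain ⟨C', hC', hb'⟩ := decay2 (SchwartzMap.derivCLM ℝ ℂ (𝓕 (bump b2)))
  refine ⟨⇑(𝓕 (bump b1) : 𝓢(ℝ, ℂ)), fun n τ => 𝓕 (bump b2) (n - τ) - 𝓕 (bump b2) n,
    fun n => 4 * C' * (1 / (1 + |(n : ℝ)|) ^ 2), C, (𝓕 (bump b1)).continuous,
    (𝓕 (bump b1)).integrable, ?_, hC, hb, fun n => by positivity, summable_w.mul_left _,
    fun n => by simp, fun n s t hs ht => ?_, fun x τ => ?_⟩
  · rw [SchwartzMap.fourier_coe (bump b1), Real.fourier_real_eq_integral_exp_smul]
    simp only [mul_zero, Complex.ofReal_zero, zero_mul, Complex.exp_zero, one_smul, bump_apply]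
    rw [integral_complex_ofReal]
    exact_mod_cast (b1.integral_pos (μ := volume)).ne'
  · have h1 := Convex.norm_image_sub_le_of_norm_deriv_le (𝕜 := ℝ) (f := ⇑(𝓕 (bump b2) : 𝓢(ℝ, ℂ)))
      (s := Metric.closedBall (n : ℝ) (1 / 2)) (C := 4 * C' * (1 / (1 + |(n : ℝ)|) ^ 2))
      (x := n - t) (y := n - s) (fun y _ => (𝓕 (bump b2)).differentiableAt) (fun y hy => ?_)
      (convex_closedBall _ _) (by simpa [Real.dist_eq] using ht) (by simpa [Real.dist_eq] using hs)
    · rw [sub_sub_sub_cancel_right]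
      refine h1.trans (le_of_eq ?_)
      rw [Real.norm_eq_abs, sub_sub_sub_cancel_left, abs_sub_comm]
    · refine (hb' y).trans ?_
      rw [Metric.mem_closedBall, Real.dist_eq] at hy
      have h2 : |(n : ℝ)| ≤ |y| + |y - n| := by
        have := abs_sub y (y - n)
        simpa using this
      rw [mul_one_div, div_le_div_iff₀ (by positivity) (by positivity)]
      have h3 : (1 + |(n : ℝ)|) ^ 2 ≤ (2 * (1 + |y|)) ^ 2 := by
        gcongr; linarith [abs_nonneg y]
      nlinarith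
  · have h1 := (translate x τ).sub (translate x 0)
    simp only [sub_zero] at h1
    simpa only [sub_mul] using h1

end Pool.Agent.H.MP_260e18_an
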