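import Mathlib
import Pool.Agent.H.MP_260e18_an.A

namespace Pool.Agent.H.MP_260e18_an

open MeasureTheory Set Filter Topology
open scoped Real BoundedContinuousFunction

/-- clamped arcsine -/
noncomputable def asn (p : ℝ) : ℝ := Real.arcsin (max (-(1 / 4)) (min p (1 / 4)))

theorem arcsin_lip {a b : ℝ} (ha : a ∈ Icc (-(1 / 4) : ℝ) (1 / 4))
    (hb : b ∈ Icc (-(1 / 4) : ℝ) (1 / 4)) : |Real.arcsin a - Real.arcsin b| ≤ 2 * |a - b| := by
  have := Convex.norm_image_sub_le_of_norm_hasDerivWithin_le (𝕜 := ℝ) (f := Real.arcsin)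
    (f' := fun x => 1 / Real.sqrt (1 - x ^ 2)) (s := Icc (-(1 / 4) : ℝ) (1 / 4)) (C := 2)
    (fun x hx => (Real.hasDerivAt_arcsin (by linarith [hx.1]) (by linarith [hx.2])).hasDerivWithinAt)
    (fun x hx => ?_) (convex_Icc _ _) hb ha
  · simpa using this
  · have h1 : 1 / 2 ≤ Real.sqrt (1 - x ^ 2) := by
      apply Real.le_sqrt_of_sq_le
      nlinarith [hx.1, hx.2]
    rw [Real.norm_eq_abs, abs_of_nonneg (by positivity), div_le_iff₀ (by linarith)]
    linarith

theorem clamp_mem (p : ℝ) : max (-(1 / 4)) (min p (1 / 4)) ∈ Icc (-(1 / 4) : ℝ) (1 / 4) :=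
  ⟨le_max_left _ _, max_le (by norm_num) (min_le_right _ _)⟩

theorem asn_lip (p q : ℝ) : |asn p - asn q| ≤ 2 * |p - q| := by
  refine (arcsin_lip (clamp_mem p) (clamp_mem q)).trans ?_
  refine mul_le_mul_of_nonneg_left ?_ zero_le_two
  rw [max_comm _ (min p _), max_comm _ (min q _)]
  refine (abs_max_sub_max_le_abs _ _ _).trans ?_
  simpa using abs_min_sub_min_le_max p (1 / 4) q (1 / 4)

theorem asn_bound (p : ℝ) : |asn p| ≤ 1 / 2 := by
  have := arcsin_lip (clamp_mem p) (b := 0) (by constructor <;> norm_num)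
  rw [Real.arcsin_zero, sub_zero, sub_zero] at this
  have h2 := abs_le.2 (clamp_mem p)
  unfold asn
  linarith

theorem sin_asn {p : ℝ} (hp : |p| ≤ 1 / 4) : Real.sin (asn p) = p := by
  rw [abs_le] at hp
  unfold asn
  rw [min_eq_left hp.2, max_eq_right hp.1, Real.sin_arcsin (by linarith) (by linarith)]

/-- the six angles of a cluster -/
noncomputable def ang (z : ℂ) : Fin 6 → ℝ :=
  ![π / 2 - asn (z.re / 2), -(π / 2 - asn (z.re / 2)), π - asn (z.im / 2), asn (z.im / 2),
    π / 4, π / 4 - π]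

theorem ang_bound (z : ℂ) (k : Fin 6) : |ang z k| ≤ 4 := by
  have h1 := abs_le.1 (asn_bound (z.re / 2))
  have h2 := abs_le.1 (asn_bound (z.im / 2))
  have h3 := Real.pi_gt_three
  have h4 := Real.pi_lt_d2
  rw [abs_le]
  fin_cases k <;> simp only [ang] <;> constructor <;> simp <;> linarith

theorem ang_inj (z : ℂ) : Function.Injective (ang z) := by
  have h1 := abs_le.1 (asn_bound (z.re / 2))
  have h2 := abs_le.1 (asn_bound (z.im / 2))
  have h3 := Real.pi_gt_three
  have h4 := Real.pi_lt_d2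
  intro k l h
  fin_cases k <;> fin_cases l <;> first | rfl | (exfalso; simp [ang] at h <;> linarith)

theorem ang_lip (z z' : ℂ) (k : Fin 6) : |ang z k - ang z' k| ≤ ‖z - z'‖ := by
  have h1 : |asn (z.re / 2) - asn (z'.re / 2)| ≤ ‖z - z'‖ := by
    refine (asn_lip _ _).trans ?_
    have := Complex.abs_re_le_norm (z - z')
    rw [← sub_div, abs_div, abs_two]
    rw [Complex.sub_re] at this
    linarith
  have h2 : |asn (z.im / 2) - asn (z'.im / 2)| ≤ ‖z - z'‖ := by
    refine (asn_lip _ _).trans ?_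
    have := Complex.abs_im_le_norm (z - z')
    rw [← sub_div, abs_div, abs_two]
    rw [Complex.sub_im] at this
    linarith
  have h3 := norm_nonneg (z - z')
  rw [abs_le] at h1 h2 ⊢
  fin_cases k <;> simp only [ang] <;> constructor <;> simp <;> linarith

/-- the coefficients -/
noncomputable def cf (j : ℤ) (z : ℂ) (k : Fin 6) : ℂ :=
  if k.1 < 4 ∨ 0 ≤ j then Complex.exp (ang z k * Complex.I) else 0

theorem cf_norm (j : ℤ) (z : ℂ) (k : Fin 6) : ‖cf j z k‖ ≤ 1 := by
  unfold cf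
  split_ifs
  · rw [Complex.norm_exp_ofReal_mul_I]
  · simp

theorem cf_lip (j : ℤ) (z z' : ℂ) (k : Fin 6) : ‖cf j z k - cf j z' k‖ ≤ ‖z - z'‖ := by
  unfold cf
  split_ifs
  · refine le_trans ?_ (ang_lip z z' k)
    have e : Complex.exp (ang z k * Complex.I) - Complex.exp (ang z' k * Complex.I) =
        Complex.exp (ang z' k * Complex.I) *
          (Complex.exp (Complex.I * (ang z k - ang z' k : ℝ)) - 1) := by
      rw [mul_sub, ← Complex.exp_add]
      congr 2
      · push_cast; ring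
      · simp
    rw [e, norm_mul, Complex.norm_exp_ofReal_mul_I, one_mul, ← Real.norm_eq_abs]
    exact Real.norm_exp_I_mul_ofReal_sub_one_le
  · simp

theorem cf_sum (j : ℤ) {z : ℂ} (hz : ‖z‖ ≤ 1 / 2) : ∑ k, cf j z k = z := by
  have h1 : Real.sin (asn (z.re / 2)) = z.re / 2 := sin_asn (by
    have := Complex.abs_re_le_norm z
    rw [abs_div, abs_two]; linarith)
  have h2 : Real.sin (asn (z.im / 2)) = z.im / 2 := sin_asn (by
    have := Complex.abs_im_le_norm z
    rw [abs_div, abs_two]; linarith)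
  have e0 : cf j z 0 = Complex.exp ((π / 2 - asn (z.re / 2) : ℝ) * Complex.I) := by
    simp [cf, ang]
  have e1 : cf j z 1 = Complex.exp ((-(π / 2 - asn (z.re / 2)) : ℝ) * Complex.I) := by
    simp [cf, ang]
  have e2 : cf j z 2 = Complex.exp ((π - asn (z.im / 2) : ℝ) * Complex.I) := by
    simp [cf, ang]
  have e3 : cf j z 3 = Complex.exp ((asn (z.im / 2) : ℝ) * Complex.I) := by
    simp [cf, ang]
  have e4 : cf j z 4 + cf j z 5 = 0 := by
    by_cases hj : 0 ≤ j
    · have a4 : cf j z 4 = Complex.exp ((π / 4 : ℝ) * Complex.I) := by simp [cf, ang, hj]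
      have a5 : cf j z 5 = Complex.exp ((π / 4 - π : ℝ) * Complex.I) := by simp [cf, ang, hj]
      rw [a4, a5]
      apply Complex.ext <;>
        simp only [Complex.add_re, Complex.add_im, Complex.exp_ofReal_mul_I_re,
          Complex.exp_ofReal_mul_I_im, Real.cos_sub_pi, Real.sin_sub_pi, Complex.zero_re,
          Complex.zero_im] <;> ring
    · simp [cf, hj]
  rw [Fin.sum_univ_six, add_assoc, e4, add_zero, e0, e1, e2, e3]
  apply Complex.ext <;>
    simp only [Complex.add_re, Complex.add_im, Complex.exp_ofReal_mul_I_re,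
      Complex.exp_ofReal_mul_I_im, Real.cos_neg, Real.sin_neg, Real.cos_pi_div_two_sub,
      Real.cos_pi_sub, Real.sin_pi_sub, h1, h2] <;> ring

/-- the displacement -/
noncomputable def tau (ω : ℕ) (z : ℂ) (k : Fin 6) : ℝ := ang z k / (2 * π * ω)

theorem tau_bound {ω : ℕ} (hω : 0 < ω) (z : ℂ) (k : Fin 6) : |tau ω z k| ≤ 1 / ω := by
  have h1 : (0 : ℝ) < ω := by exact_mod_cast hω
  have h3 := Real.pi_gt_three
  unfold tau
  rw [abs_div, abs_of_pos (show 0 < 2 * π * ω by positivity),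
    div_le_div_iff₀ (by positivity) h1]
  have := ang_bound z k
  nlinarith

theorem tau_lip {ω : ℕ} (hω : 0 < ω) (z z' : ℂ) (k : Fin 6) :
    |tau ω z k - tau ω z' k| ≤ ‖z - z'‖ / ω := by
  have h1 : (0 : ℝ) < ω := by exact_mod_cast hω
  have h3 := Real.pi_gt_three
  unfold tau
  rw [← sub_div, abs_div, abs_of_pos (show 0 < 2 * π * ω by positivity),
    div_le_div_iff₀ (by positivity) h1]
  have := ang_lip z z' k
  have h4 := norm_nonneg (z - z')
  have h5 : ‖z - z'‖ * ω ≤ ‖z - z'‖ * (2 * π * ω) := by gcongr; nlinarith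
  nlinarith

theorem exists_fixed (b : ℤ → ℝ → ℂ) (w : ℤ → ℝ) (hw0 : ∀ n, 0 ≤ w n) (hw : Summable w)
    (hb0 : ∀ n, b n 0 = 0)
    (hb : ∀ n s t, |s| ≤ 1 / 2 → |t| ≤ 1 / 2 → ‖b n s - b n t‖ ≤ w n * |s - t|) :
    ∃ (ω : ℕ) (z : ℤ → ℂ), 4 ≤ ω ∧ (∀ j, ‖z j‖ ≤ 1 / 2) ∧
      (∀ j n k, ‖b n (tau ω (z j) k)‖ ≤ w n) ∧
      ∀ i, z i = -∑' n, ∑ k, cf (i - n) (z (i - n)) k * b n (tau ω (z (i - n)) k) := by
  obtain ⟨ω, hω⟩ := exists_nat_ge (24 * ∑' n, w n + 4)
  have hW : 0 ≤ ∑' n, w n := tsum_nonneg hw0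
  have hω4 : (4 : ℝ) ≤ ω := by linarith
  have hω4' : 4 ≤ ω := by exact_mod_cast hω4
  have hω0 : 0 < ω := by omega
  have ht : ∀ z k, |tau ω z k| ≤ 1 / 2 := fun z k =>
    (tau_bound hω0 z k).trans (one_div_le_one_div_of_le (by norm_num) (by linarith))
  have hbn : ∀ n z k, ‖b n (tau ω z k)‖ ≤ w n * (1 / ω) := fun n z k => by
    have := hb n (tau ω z k) 0 (ht z k) (by simp)
    rw [hb0, sub_zero, sub_zero] at this
    exact this.trans (mul_le_mul_of_nonneg_left (tau_bound hω0 z k) (hw0 n))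
  let β : ℤ → ℤ → ℂ → ℂ := fun j n z => ∑ k, cf j z k * b n (tau ω z k)
  have hβ : ∀ j n z, ‖β j n z‖ ≤ 6 / ω * w n := fun j n z => by
    refine (norm_sum_le _ _).trans ?_
    refine (Finset.sum_le_card_nsmul _ _ (w n * (1 / ω)) fun k _ => ?_).trans (le_of_eq ?_)
    · rw [norm_mul]
      exact (mul_le_of_le_one_left (norm_nonneg _) (cf_norm _ _ _)).trans (hbn n z k)
    · simp; ring
  have hβl : ∀ j n z z', ‖β j n z - β j n z'‖ ≤ 12 / ω * ‖z - z'‖ * w n := fun j n z z' => by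
    simp only [β]
    rw [← Finset.sum_sub_distrib]
    refine (norm_sum_le _ _).trans ?_
    refine (Finset.sum_le_card_nsmul _ _ (2 / ω * ‖z - z'‖ * w n) fun k _ => ?_).trans
      (le_of_eq ?_)
    · have e : cf j z k * b n (tau ω z k) - cf j z' k * b n (tau ω z' k) =
          (cf j z k - cf j z' k) * b n (tau ω z k) +
            cf j z' k * (b n (tau ω z k) - b n (tau ω z' k)) := by ring
      rw [e]
      refine (norm_add_le _ _).trans ?_
      rw [norm_mul, norm_mul]
      have a1 := mul_le_mul (cf_lip j z z' k) (hbn n z k) (norm_nonneg _) (norm_nonneg _)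
      have a2 := (mul_le_of_le_one_left (norm_nonneg _) (cf_norm j z' k)).trans
        ((hb n _ _ (ht z k) (ht z' k)).trans
          (mul_le_mul_of_nonneg_left (tau_lip hω0 z z' k) (hw0 n)))
      refine (add_le_add a1 a2).trans (le_of_eq ?_)
      ring
    · simp; ring
  have hsum : ∀ (z : ℤ → ℂ) i, Summable fun n => β (i - n) n (z (i - n)) := fun z i =>
    Summable.of_norm_bounded (hw.mul_left _) fun n => hβ _ _ _
  have hbd : ∀ (z : ℤ → ℂ) i, ‖-∑' n, β (i - n) n (z (i - n))‖ ≤ 1 / 2 := fun z i => by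
    rw [norm_neg]
    refine (tsum_of_norm_bounded (hw.mul_left (6 / ω : ℝ)).hasSum fun n => hβ _ _ _).trans ?_
    rw [tsum_mul_left, div_mul_eq_mul_div, div_le_iff₀ (by linarith)]
    linarith
  let Φ : (ℤ →ᵇ ℂ) → (ℤ →ᵇ ℂ) := fun z => BoundedContinuousFunction.ofNormedAddCommGroupDiscrete
    (fun i => -∑' n, β (i - n) n (z (i - n))) (1 / 2) (hbd z)
  have hΦ : ContractingWith (1 / 2) Φ := by
    refine ⟨by norm_num, LipschitzWith.of_dist_le_mul fun z z' => ?_⟩
    refine (BoundedContinuousFunction.dist_le (by positivity)).2 fun i => ?_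
    show dist (-∑' n, β (i - n) n (z (i - n))) (-∑' n, β (i - n) n (z' (i - n))) ≤ _
    rw [dist_neg_neg, dist_eq_norm, ← (hsum z i).tsum_sub (hsum z' i)]
    refine (tsum_of_norm_bounded (hw.mul_left (12 / ω * dist z z')).hasSum fun n => ?_).trans ?_
    · refine (hβl _ _ _ _).trans ?_
      gcongr
      · exact hw0 n
      · rw [← dist_eq_norm]; exact BoundedContinuousFunction.dist_coe_le_dist _
    · rw [tsum_mul_left]
      have h1 : 12 / ω * ∑' n, w n ≤ 1 / 2 := by
        rw [div_mul_eq_mul_div, div_le_iff₀ (by linarith)]; linarith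
      have := mul_le_mul_of_nonneg_right h1 (dist_nonneg (x := z) (y := z'))
      push_cast
      linarith
  have hfix := hΦ.fixedPoint_isFixedPt
  set z := hΦ.fixedPoint
  have hz : ∀ i, z i = -∑' n, β (i - n) n (z (i - n)) := fun i => by
    conv_lhs => rw [← hfix]
    rfl
  refine ⟨ω, z, hω4', fun j => by rw [hz]; exact hbd z j, fun j n k => ?_, hz⟩
  refine (hbn n _ k).trans (mul_le_of_le_one_right (hw0 n) ?_)
  rw [div_le_one (by linarith)]; linarith

theorem hs_congr {ι : Type} {f g : ι → ℂ} {a : ℂ} (h : HasSum f a) (e : ∀ i, g i = f i) :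
    HasSum g a := (funext e : g = f) ▸ h

theorem exists_config : ∃ (h : ℝ → ℂ) (ω : ℕ) (z : ℤ → ℂ), Continuous h ∧ Integrable h ∧
    h 0 ≠ 0 ∧ 4 ≤ ω ∧ ∀ x, (Summable fun p : ℤ × Fin 6 => ‖h (x - (p.1 + tau ω (z p.1) p.2))‖) ∧
      ∑' p : ℤ × Fin 6, cf p.1 (z p.1) p.2 * h (x - (p.1 + tau ω (z p.1) p.2)) = 0 := by
  obtain ⟨h, b, w, C, hc, hi, h0, hC, hdec, hw0, hw, hb0, hb, hexp⟩ := kernel
  obtain ⟨ω, z, hω, hz, hbw, hfix⟩ := exists_fixed b w hw0 hw hb0 hb
  refine ⟨h, ω, z, hc, hi, h0, hω, fun x => ?_⟩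
  have hS : Summable fun p : ℤ × Fin 6 => ‖h (x - (p.1 + tau ω (z p.1) p.2))‖ := by
    have h1 : Summable fun p : ℤ × Fin 6 =>
        (C * (1 + (|x| + 1)) ^ 2 * (1 / (1 + |(p.1 : ℝ)|) ^ 2)) * (1 : ℝ) :=
      (summable_w.mul_left _).mul_of_nonneg (g := fun _ : Fin 6 => (1 : ℝ))
        Summable.of_finite (fun _ => by positivity) (fun _ => zero_le_one)
    refine Summable.of_nonneg_of_le (fun _ => norm_nonneg _) (fun p => ?_) h1
    refine (hdec _).trans ?_
    rw [show x - (p.1 + tau ω (z p.1) p.2) = x - tau ω (z p.1) p.2 - p.1 by ring, mul_one]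
    refine (shift_bound hC.le _ _).trans ?_
    gcongr
    have h2 := tau_bound (show 0 < ω by omega) (z p.1) p.2
    have h3 : (1 : ℝ) / ω ≤ 1 := by
      rw [div_le_one (by positivity)]; exact_mod_cast (by omega : 1 ≤ ω)
    have := abs_sub x (tau ω (z p.1) p.2)
    linarith
  refine ⟨hS, ?_⟩
  have hS' : Summable fun p : ℤ × Fin 6 =>
      cf p.1 (z p.1) p.2 * h (x - (p.1 + tau ω (z p.1) p.2)) :=
    Summable.of_norm_bounded hS fun p => by
      rw [norm_mul]; exact mul_le_of_le_one_left (norm_nonneg _) (cf_norm _ _ _)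
  have hh : Summable fun i : ℤ => ‖h (x - i)‖ :=
    Summable.of_nonneg_of_le (fun _ => norm_nonneg _)
      (fun i => (hdec _).trans (shift_bound hC.le x i)) (summable_w.mul_left _)
  let β : ℤ → ℤ → ℂ := fun j n => ∑ k, cf j (z j) k * b n (tau ω (z j) k)
  have hβ : ∀ j n, ‖β j n‖ ≤ 6 * w n := fun j n => by
    refine (norm_sum_le _ _).trans ?_
    refine (Finset.sum_le_card_nsmul _ _ (w n) fun k _ => ?_).trans (le_of_eq ?_)
    · rw [norm_mul]
      exact (mul_le_of_le_one_left (norm_nonneg _) (cf_norm _ _ _)).trans (hbw _ _ _)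
    · simp
  have hG : Summable fun q : ℤ × ℤ => β (q.1 - q.2) q.2 * h (x - q.1) := by
    refine Summable.of_norm_bounded (hh.mul_of_nonneg (hw.mul_left 6) (fun _ => norm_nonneg _)
      (fun n => by have := hw0 n; positivity)) fun q => ?_
    rw [norm_mul, mul_comm]
    exact mul_le_mul_of_nonneg_left (hβ _ _) (norm_nonneg _)
  have h1 : HasSum (fun i : ℤ => -(z i * h (x - i)))
      (∑' q : ℤ × ℤ, β (q.1 - q.2) q.2 * h (x - q.1)) := by
    refine hG.hasSum.prod_fiberwise fun i => ?_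
    have := ((Summable.of_norm_bounded (hw.mul_left 6) fun n => hβ (i - n) n).hasSum).mul_right
      (h (x - i))
    rw [hfix i, neg_mul, neg_neg]
    exact this
  let e : ℤ × ℤ ≃ ℤ × ℤ :=
    { toFun := fun q => (q.1 + q.2, q.2)
      invFun := fun q => (q.1 - q.2, q.2)
      left_inv := fun q => by simp
      right_inv := fun q => by simp }
  have h2 : HasSum (fun j : ℤ => ∑ k, cf j (z j) k * (h (x - j - tau ω (z j) k) - h (x - j)))
      (∑' q : ℤ × ℤ, β (q.1 - q.2) q.2 * h (x - q.1)) := by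
    refine (e.hasSum_iff.2 hG.hasSum).prod_fiberwise fun j => ?_
    have := hasSum_sum (s := Finset.univ)
      fun k _ => (hexp (x - j) (tau ω (z j) k)).mul_left (cf j (z j) k)
    refine hs_congr this fun n => ?_
    simp only [e, Function.comp, Equiv.coe_fn_mk, add_sub_cancel_right, β, Finset.sum_mul,
      mul_assoc]
    push_cast
    rw [sub_add_eq_sub_sub]
  have h3 := h2.sub h1
  rw [sub_self] at h3
  have h4 := hS'.hasSum.prod_fiberwise fun j => hasSum_fintype _
  refine h4.unique ?_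
  refine hs_congr h3 fun j => ?_
  simp only [mul_sub, Finset.sum_sub_distrib, ← Finset.sum_mul, cf_sum j (hz j),
    sub_add_eq_sub_sub]
  ring

theorem main : ∃ (f : ℝ → ℂ) (Λ : Set ℝ), Integrable f volume ∧ ¬ (f =ᵐ[volume] 0) ∧
    Λ.Nonempty ∧ (∀ x : ℝ, (Λ ∩ Set.Ico x (x + 1)).encard ≤ ((24 : ℕ) : ℕ∞)) ∧
    (∀ x : ℝ, Summable (fun l : Λ => ‖f (x - (l : ℝ))‖) ∧ ∑' l : Λ, f (x - (l : ℝ)) = 0) ∧
    ∀ N : ℕ, 6 * N ≤ (Λ ∩ Set.Ico (-(1 / 2)) (-(1 / 2) + N)).ncard ∧
      (Λ ∩ Set.Ico (-(1 / 2) - N) (-(1 / 2) - N + N)).ncard ≤ 4 * N := by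
  classical
  obtain ⟨h, ω, z, hc, hi, h0, hω, hsum⟩ := exists_config
  have hω' : (4 : ℝ) ≤ ω := by exact_mod_cast hω
  let p : ℤ × Fin 6 → ℝ := fun q => q.1 + tau ω (z q.1) q.2
  have ht : ∀ q : ℤ × Fin 6, |tau ω (z q.1) q.2| ≤ 1 / 4 := fun q =>
    (tau_bound (by omega) _ _).trans (one_div_le_one_div_of_le (by norm_num) hω')
  have hp : Function.Injective p := by
    rintro ⟨j, k⟩ ⟨j', k'⟩ e
    have h1 := abs_le.1 (ht (j, k))
    have h2 := abs_le.1 (ht (j', k'))
    simp only [p] at e h1 h2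
    have h3 : j = j' := by
      have a1 : (j : ℝ) < j' + 1 := by linarith
      have a2 : (j' : ℝ) < j + 1 := by linarith
      have a3 : j < j' + 1 := by exact_mod_cast a1
      have a4 : j' < j + 1 := by exact_mod_cast a2
      omega
    subst h3
    have h4 := add_left_cancel e
    unfold tau at h4
    rw [div_left_inj' (by positivity)] at h4
    rw [ang_inj _ h4]
  let A : Set (ℤ × Fin 6) := {q | q.2.1 < 4 ∨ 0 ≤ q.1}
  let E : ℝ → ℂ := fun x => Complex.exp (((-(2 * π * ω * x) : ℝ) : ℂ) * Complex.I)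
  have hE : ∀ x, ‖E x‖ = 1 := fun x => Complex.norm_exp_ofReal_mul_I _
  have hcover : ∀ (a r : ℝ) (s : Finset (ℤ × Fin 6)),
      (∀ q ∈ A, a - 1 / 4 ≤ q.1 → (q.1 : ℝ) < a + r + 1 / 4 → q ∈ s) →
      p '' A ∩ Ico a (a + r) ⊆ (s.image p : Finset ℝ) := by
    rintro a r s hs _ ⟨⟨q, hq, rfl⟩, h1, h2⟩
    have h3 := abs_le.1 (ht q)
    simp only [p] at h1 h2
    exact Finset.mem_coe.2 (Finset.mem_image_of_mem _ (hs q hq (by linarith) (by linarith)))
  refine ⟨fun x => E x * h x, p '' A, ?_, ?_, ⟨_, (0, 0), Or.inr le_rfl, rfl⟩, fun x => ?_,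
    fun x => ?_, fun N => ⟨?_, ?_⟩⟩
  · refine Integrable.mono' hi.norm (Continuous.aestronglyMeasurable (by fun_prop))
      (Eventually.of_forall fun x => ?_)
    rw [norm_mul, hE, one_mul]
  · intro hae
    have := congrFun ((Continuous.ae_eq_iff_eq volume (by fun_prop) continuous_zero).1 hae) 0
    simp only [Pi.zero_apply, mul_eq_zero] at this
    exact this.elim (Complex.exp_ne_zero _) h0
  · refine (encard_le_encard (hcover x 1 (Finset.Icc (⌊x⌋ - 1) (⌊x⌋ + 2) ×ˢ Finset.univ)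
      fun q _ h1 h2 => ?_)).trans ?_
    · rw [Finset.mem_product, Finset.mem_Icc]
      have a1 := Int.floor_le x
      have a2 := Int.lt_floor_add_one x
      have a3 : ((⌊x⌋ - 1 : ℤ) : ℝ) < q.1 := by push_cast; linarith
      have a4 : (q.1 : ℝ) < (⌊x⌋ + 3 : ℤ) := by push_cast; linarith
      have a5 : ⌊x⌋ - 1 < q.1 := by exact_mod_cast a3
      have a6 : q.1 < ⌊x⌋ + 3 := by exact_mod_cast a4
      exact ⟨⟨by omega, by omega⟩, Finset.mem_univ _⟩
    · rw [encard_coe_eq_coe_finsetCard, Nat.cast_le]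
      refine Finset.card_image_le.trans ?_
      rw [Finset.card_product, Int.card_Icc]
      simp only [Finset.card_univ, Fintype.card_fin]
      omega
  · obtain ⟨h1, h2⟩ := hsum x
    constructor
    · rw [← (Equiv.Set.image p A hp).summable_iff]
      refine (h1.subtype A).congr fun q => ?_
      simp [hE, p]
    · rw [tsum_image (fun l => E (x - l) * h (x - l)) hp.injOn,
        tsum_subtype A (fun q => E (x - p q) * h (x - p q))]
      have : ∀ q, A.indicator (fun q => E (x - p q) * h (x - p q)) q =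
          E x * (cf q.1 (z q.1) q.2 * h (x - (q.1 + tau ω (z q.1) q.2))) := fun q => by
        by_cases hq : q ∈ A
        · rw [indicator_of_mem hq, ← mul_assoc, cf, if_pos (show q.2.1 < 4 ∨ 0 ≤ q.1 from hq)]
          congr 1
          simp only [E, p, tau]
          rw [← Complex.exp_add, Complex.exp_eq_exp_iff_exists_int]
          refine ⟨ω * q.1, ?_⟩
          have : (ω : ℂ) ≠ 0 := by exact_mod_cast (by omega : ω ≠ 0)
          have : (π : ℂ) ≠ 0 := by exact_mod_cast Real.pi_ne_zero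
          push_cast
          field_simp
          ring
        · rw [indicator_of_notMem hq, cf, if_neg (show ¬ (q.2.1 < 4 ∨ 0 ≤ q.1) from hq)]; simp
      simp only [this]
      rw [tsum_mul_left, h2, mul_zero]
  · have h1 : (((Finset.Ico (0 : ℤ) N ×ˢ Finset.univ).image p : Finset ℝ) : Set ℝ) ⊆
        p '' A ∩ Ico (-(1 / 2)) (-(1 / 2) + N) := by
      intro y hy
      obtain ⟨q, hq, rfl⟩ := Finset.mem_image.1 (Finset.mem_coe.1 hy)
      have a1 := Finset.mem_Ico.1 (Finset.mem_product.1 hq).1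
      have a2 := abs_le.1 (ht q)
      have a3 : (0 : ℝ) ≤ q.1 := by exact_mod_cast a1.1
      have a4 : (q.1 : ℝ) + 1 ≤ N := by exact_mod_cast a1.2
      exact ⟨⟨q, Or.inr a1.1, rfl⟩, by simp only [p]; linarith, by simp only [p]; linarith⟩
    have h2 := hcover (-(1 / 2)) N (Finset.Icc (-1 : ℤ) N ×ˢ Finset.univ) fun q _ a1 a2 => by
      rw [Finset.mem_product, Finset.mem_Icc]
      have a3 : ((-1 : ℤ) : ℝ) < q.1 := by push_cast; linarith
      have a4 : (q.1 : ℝ) < (N : ℤ) := by push_cast; linarith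
      have a5 : -1 < q.1 := by exact_mod_cast a3
      have a6 : q.1 < N := by exact_mod_cast a4
      exact ⟨⟨by omega, by omega⟩, Finset.mem_univ _⟩
    refine le_trans (le_of_eq ?_) (ncard_le_ncard h1 ((Finset.finite_toSet _).subset h2))
    rw [ncard_coe_finset, Finset.card_image_of_injective _ hp, Finset.card_product, Int.card_Ico]
    simp [mul_comm]
  · have h2 := hcover (-(1 / 2) - N) N
      (Finset.Ico (-N : ℤ) 0 ×ˢ (Finset.univ.filter fun k : Fin 6 => k.1 < 4))
      fun q hq a1 a2 => by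
      rw [Finset.mem_product, Finset.mem_Ico]
      have a3 : ((-N - 1 : ℤ) : ℝ) < q.1 := by push_cast; linarith
      have a4 : (q.1 : ℝ) < 0 := by linarith
      have a5 : -N - 1 < q.1 := by exact_mod_cast a3
      have a6 : q.1 < 0 := by exact_mod_cast a4
      exact ⟨⟨by omega, a6⟩, Finset.mem_filter.2 ⟨Finset.mem_univ _, hq.resolve_right (by omega)⟩⟩
    refine (ncard_le_ncard h2 (Finset.finite_toSet _)).trans ?_
    rw [ncard_coe_finset]
    refine Finset.card_image_le.trans ?_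
    rw [Finset.card_product, Int.card_Ico]
    have : (Finset.univ.filter fun k : Fin 6 => k.1 < 4).card = 4 := by decide
    rw [this]
    simp [mul_comm]

end Pool.Agent.H.MP_260e18_an
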